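import Mathlib

/-! Bracket-closed spaces of skew matrices which contain a maximal torus: definitions. -/

set_option autoImplicit false

noncomputable section

namespace TLF

variable {ι : Type*} [Fintype ι] [DecidableEq ι]

/-- The matrix `X` is skew for the alternating form with `ψ(e i, e (bar i)) = ε i`, `ψ(e i, e j) = 0` for `j ≠ bar i`. -/
def IsSkewE (bar : ι → ι) (ε : ι → ℂ) (X : Matrix ι ι ℂ) : Prop :=
  ∀ k l, ε k * X k l + ε l * X (bar l) (bar k) = 0

/-- `N` is a bracket-closed space of skew matrices which contains all the odd diagonal matrices. -/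
structure IsTorusLie (bar : ι → ι) (ε : ι → ℂ) (N : Submodule ℂ (Matrix ι ι ℂ)) : Prop where
  bar_bar : ∀ i, bar (bar i) = i
  bar_ne : ∀ i, bar i ≠ i
  ε_ne : ∀ i, ε i ≠ 0
  ε_bar : ∀ i, ε (bar i) = - ε i
  br : ∀ X ∈ N, ∀ Y ∈ N, X * Y - Y * X ∈ N
  skew : ∀ X ∈ N, IsSkewE bar ε X
  tor : ∀ x : ι → ℂ, (∀ i, x (bar i) = - x i) → Matrix.diagonal x ∈ N

/-- The skew matrix with the entry `(i, j)`. -/
def uu (bar : ι → ι) (ε : ι → ℂ) (i j : ι) : Matrix ι ι ℂ :=
  Matrix.single i j 1 - (ε i / ε j) • Matrix.single (bar j) (bar i) 1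

end TLF
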