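import Mathlib

/-! LEAF ZL (easy+, Mathlib only).  A linear map with finite-dimensional source and values in a subspace.

PROOF.  `LinearMap.range Θ` is finite-dimensional (`W` is); let `β` be a basis of it (`Module.finBasis`), `α k = (β k : F)`, `χ k w = β.repr ⟨Θ w, _⟩ k` (a linear form: `β.coord k ∘ₗ Θ.rangeRestrict`).
`α` is linearly independent (`LinearIndependent.map'` with the injection of the range), `α k ∈ S` as it is a value of `Θ`, and `Θ w = ∑ k, χ k w • α k` (`Basis.sum_repr`). -/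

set_option autoImplicit false

namespace TLF

open Module

theorem exists_split {W F : Type*} [AddCommGroup W] [Module ℂ W] [FiniteDimensional ℂ W] [AddCommGroup F]
    [Module ℂ F] (S : Submodule ℂ F) (Θ : W →ₗ[ℂ] F) (hΘ : ∀ w, Θ w ∈ S) :
    ∃ (r : ℕ) (α : Fin r → F) (χ : Fin r → W →ₗ[ℂ] ℂ), LinearIndependent ℂ α ∧ (∀ k, α k ∈ S) ∧
      ∀ w, Θ w = ∑ k, χ k w • α k := by
  obtain ⟨β⟩ : Nonempty (Basis (Fin (finrank ℂ (LinearMap.range Θ))) ℂ (LinearMap.range Θ)) :=
    ⟨finBasis ℂ (LinearMap.range Θ)⟩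
  refine ⟨finrank ℂ (LinearMap.range Θ), fun k => ((β k : LinearMap.range Θ) : F),
    fun k => β.coord k ∘ₗ Θ.rangeRestrict, ?_, fun k => ?_, fun w => ?_⟩
  · exact β.linearIndependent.map' (LinearMap.range Θ).subtype (Submodule.ker_subtype _)
  · obtain ⟨w, hw⟩ := (β k).2
    have h1 : ((β k : LinearMap.range Θ) : F) = Θ w := hw.symm
    show ((β k : LinearMap.range Θ) : F) ∈ S
    rw [h1]
    exact hΘ w
  · have h1 := β.sum_repr (Θ.rangeRestrict w)
    have h2 := congrArg (LinearMap.range Θ).subtype h1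
    rw [map_sum] at h2
    have h3 : (LinearMap.range Θ).subtype (Θ.rangeRestrict w) = Θ w := rfl
    rw [h3] at h2
    rw [← h2]
    exact Finset.sum_congr rfl fun k _ => by
      rw [map_smul]
      rfl

end TLF
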