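import Pool.Agent.Lib.MP_021685_agTL2.R1

/-! LEAF R2 (medium, Mathlib only).  An entry of an element gives a root vector.

PROOF.  If `i = j`: `uu bar ε i i = single i i 1 - single (bar i) (bar i) 1 = diagonal x` with `x = Pi.single i 1 - Pi.single (bar i) 1`, which is odd (`x (bar k) = - x k`), use `h.tor`.
If `j = bar i`: take `d = Pi.single i 1 - Pi.single (bar i) 1` (values `1`, `-1`, `0`).  `d k - d l = 2` only for `k = i`, `l = bar i`.  By `comp_mem` (the hypothesis `hd` is `h.br` with `h.tor`)
`X i (bar i) • single i (bar i) 1 ∈ N`, and `uu bar ε i (bar i) = 2 • single i (bar i) 1` as `ε (bar i) = - ε i`, `bar (bar i) = i`.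
Otherwise `i`, `bar i`, `j`, `bar j` are four different indices.  Take `d = Pi.single i 1 - Pi.single (bar i) 1 - 3 • Pi.single j 1 + 3 • Pi.single (bar j) 1` (odd, with the values
`1, -1, -3, 3` there and `0` elsewhere).  `d k - d l = 4` only for `(k, l) = (i, j)` and `(bar j, bar i)`.  By `comp_mem` the matrix `X i j • single i j 1 + X (bar j) (bar i) • single (bar j) (bar i) 1` is
in `N`; by `h.skew X hX i j` it is `X i j • uu bar ε i j`. -/

set_option autoImplicit false

namespace TLF

variable {ι : Type*} [Fintype ι] [DecidableEq ι] {bar : ι → ι} {ε : ι → ℂ} {N : Submodule ℂ (Matrix ι ι ℂ)}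

/-- the odd vector with `1` at `i` and `-1` at `bar i` -/
private def R2_x (bar : ι → ι) (i : ι) : ι → ℂ := fun k => (if k = i then 1 else 0) - (if k = bar i then 1 else 0)

private theorem R2_odd (h : IsTorusLie bar ε N) (i k : ι) : R2_x bar i (bar k) = - R2_x bar i k := by
  have h1 : (bar k = i) ↔ (k = bar i) :=
    ⟨fun e => by rw [← e, h.bar_bar], fun e => by rw [e, h.bar_bar]⟩
  have h2 : (bar k = bar i) ↔ (k = i) :=
    ⟨fun e => by rw [← h.bar_bar k, e, h.bar_bar], fun e => by rw [e]⟩
  unfold R2_x
  simp only [h1, h2]
  ring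

private theorem R2_self (h : IsTorusLie bar ε N) (i : ι) : uu bar ε i i ∈ N := by
  have h1 : uu bar ε i i = Matrix.diagonal (R2_x bar i) := by
    ext k l
    unfold uu R2_x
    rw [div_self (h.ε_ne i), one_smul, Matrix.sub_apply, Matrix.single_apply, Matrix.single_apply,
      Matrix.diagonal_apply]
    by_cases hkl : k = l
    · subst hkl
      simp only [and_self, if_true, eq_comm]
    · rw [if_neg, if_neg, if_neg hkl, sub_zero]
      · rintro ⟨rfl, rfl⟩
        exact hkl rfl
      · rintro ⟨rfl, rfl⟩
        exact hkl rfl
  rw [h1]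
  exact h.tor _ (R2_odd h i)

private theorem R2_comp (h : IsTorusLie bar ε N) (d : ι → ℂ) (hd : ∀ k, d (bar k) = - d k)
    {X : Matrix ι ι ℂ} (hX : X ∈ N) (c : ℂ) :
    (Matrix.of fun k l => if d k - d l = c then X k l else 0) ∈ N :=
  comp_mem N d (fun _ hY => h.br _ (h.tor d hd) _ hY) hX c

theorem uu_mem (h : IsTorusLie bar ε N) {X : Matrix ι ι ℂ} (hX : X ∈ N) {i j : ι} (hne : X i j ≠ 0) :
    uu bar ε i j ∈ N := by
  have hbi := h.bar_ne i
  have hbj := h.bar_ne j
  by_cases hij : i = j
  · subst hij
    exact R2_self h i
  by_cases hji : j = bar i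
  · subst hji
    have h1 := R2_comp h (R2_x bar i) (R2_odd h i) hX 2
    have h2 : (Matrix.of fun k l => if R2_x bar i k - R2_x bar i l = 2 then X k l else 0) =
        X i (bar i) • Matrix.single i (bar i) (1 : ℂ) := by
      ext k l
      rw [Matrix.of_apply, Matrix.smul_apply, Matrix.single_apply]
      have e1 : (R2_x bar i k - R2_x bar i l = 2) ↔ (i = k ∧ bar i = l) := by
        constructor
        · intro e
          unfold R2_x at e
          by_cases a1 : k = i
          · refine ⟨a1.symm, ?_⟩
            by_contra a2
            have a3 : ¬ l = bar i := fun q => a2 q.symm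
            have a4 : ¬ k = bar i := fun q => hbi (q.symm.trans a1)
            rw [if_pos a1, if_neg a4, if_neg a3] at e
            by_cases a5 : l = i
            · rw [if_pos a5] at e
              norm_num at e
            · rw [if_neg a5] at e
              norm_num at e
          · exfalso
            rw [if_neg a1] at e
            by_cases a2 : l = i
            · have a3 : ¬ l = bar i := fun q => hbi (q.symm.trans a2)
              rw [if_pos a2, if_neg a3] at e
              by_cases a4 : k = bar i
              · rw [if_pos a4] at e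
                norm_num at e
              · rw [if_neg a4] at e
                norm_num at e
            · rw [if_neg a2] at e
              by_cases a3 : l = bar i
              · rw [if_pos a3] at e
                by_cases a4 : k = bar i
                · rw [if_pos a4] at e
                  norm_num at e
                · rw [if_neg a4] at e
                  norm_num at e
              · rw [if_neg a3] at e
                by_cases a4 : k = bar i
                · rw [if_pos a4] at e
                  norm_num at e
                · rw [if_neg a4] at e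
                  norm_num at e
        · rintro ⟨rfl, rfl⟩
          unfold R2_x
          rw [if_pos rfl, if_neg (fun q => hbi q.symm), if_neg hbi, if_pos rfl]
          norm_num
      by_cases a : (i = k ∧ bar i = l)
      · rw [if_pos (e1.2 a), if_pos a, smul_eq_mul, mul_one, ← a.1, ← a.2]
      · rw [if_neg (fun q => a (e1.1 q)), if_neg a, smul_zero]
    rw [h2] at h1
    have h3 : uu bar ε i (bar i) = (2 * (X i (bar i))⁻¹) • (X i (bar i) • Matrix.single i (bar i) (1 : ℂ)) := by
      unfold uu
      rw [h.ε_bar, h.bar_bar, div_neg, div_self (h.ε_ne i), smul_smul, mul_assoc, inv_mul_cancel₀ hne, mul_one,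
        neg_smul, one_smul, sub_neg_eq_add, two_smul]
    rw [h3]
    exact N.smul_mem _ h1
  · have hjb : ¬ bar j = i := fun q => hji (by rw [← q, h.bar_bar])
    have hbb : ¬ bar j = bar i := fun q => hij (by rw [← h.bar_bar i, ← q, h.bar_bar])
    have h1 := R2_comp h (fun k => R2_x bar i k - 3 * R2_x bar j k)
      (fun k => by
        simp only [R2_odd h i k, R2_odd h j k]
        ring) hX 4
    have h2 : (Matrix.of fun k l => if (R2_x bar i k - 3 * R2_x bar j k) - (R2_x bar i l - 3 * R2_x bar j l) = 4
        then X k l else 0) =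
        X i j • Matrix.single i j (1 : ℂ) + X (bar j) (bar i) • Matrix.single (bar j) (bar i) (1 : ℂ) := by
      have hv : ∀ k, (k = i ∧ R2_x bar i k - 3 * R2_x bar j k = 1) ∨ (k = bar i ∧ R2_x bar i k - 3 * R2_x bar j k = -1) ∨
          (k = j ∧ R2_x bar i k - 3 * R2_x bar j k = -3) ∨ (k = bar j ∧ R2_x bar i k - 3 * R2_x bar j k = 3) ∨
          (k ≠ i ∧ k ≠ bar i ∧ k ≠ j ∧ k ≠ bar j ∧ R2_x bar i k - 3 * R2_x bar j k = 0) := by
        intro k
        unfold R2_x
        by_cases a1 : k = i
        · left
          subst a1
          rw [if_pos rfl, if_neg (fun q => hbi q.symm), if_neg hij, if_neg (fun q => hjb q.symm)]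
          exact ⟨rfl, by norm_num⟩
        by_cases a2 : k = bar i
        · right; left
          subst a2
          rw [if_neg hbi, if_pos rfl, if_neg (fun q => hji q.symm), if_neg (fun q => hbb q.symm)]
          exact ⟨rfl, by norm_num⟩
        by_cases a3 : k = j
        · right; right; left
          subst a3
          rw [if_neg a1, if_neg a2, if_pos rfl, if_neg (fun q => hbj q.symm)]
          exact ⟨rfl, by norm_num⟩
        by_cases a4 : k = bar j
        · right; right; right; left
          subst a4
          rw [if_neg a1, if_neg a2, if_neg a3, if_pos rfl]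
          exact ⟨rfl, by norm_num⟩
        · right; right; right; right
          rw [if_neg a1, if_neg a2, if_neg a3, if_neg a4]
          exact ⟨a1, a2, a3, a4, by norm_num⟩
      have e1 : ∀ k l, ((R2_x bar i k - 3 * R2_x bar j k) - (R2_x bar i l - 3 * R2_x bar j l) = 4) ↔
          ((i = k ∧ j = l) ∨ (bar j = k ∧ bar i = l)) := by
        intro k l
        constructor
        · intro e
          rcases hv k with ⟨b, b'⟩ | ⟨b, b'⟩ | ⟨b, b'⟩ | ⟨b, b'⟩ | ⟨-, -, -, -, b'⟩ <;>
          rcases hv l with ⟨c, c'⟩ | ⟨c, c'⟩ | ⟨c, c'⟩ | ⟨c, c'⟩ | ⟨-, -, -, -, c'⟩ <;>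
          rw [b', c'] at e <;> first | (exfalso; norm_num at e; done) | exact Or.inl ⟨b.symm, c.symm⟩ |
            exact Or.inr ⟨b.symm, c.symm⟩
        · rintro (⟨rfl, rfl⟩ | ⟨rfl, rfl⟩)
          · unfold R2_x
            rw [if_pos rfl, if_neg (fun q => hbi q.symm), if_neg hij, if_neg (fun q => hjb q.symm),
              if_neg (fun q => hij q.symm), if_neg hji, if_pos rfl, if_neg (fun q => hbj q.symm)]
            norm_num
          · unfold R2_x
            rw [if_neg hjb, if_neg hbb, if_neg hbj, if_pos rfl, if_neg hbi, if_pos rfl,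
              if_neg (fun q => hji q.symm), if_neg (fun q => hbb q.symm)]
            norm_num
      ext k l
      rw [Matrix.of_apply, Matrix.add_apply, Matrix.smul_apply, Matrix.smul_apply, Matrix.single_apply,
        Matrix.single_apply, smul_eq_mul, smul_eq_mul]
      by_cases a : (i = k ∧ j = l)
      · have a' : ¬ (bar j = k ∧ bar i = l) := fun q => hjb (by rw [q.1, a.1])
        rw [if_pos ((e1 k l).2 (Or.inl a)), if_pos a, if_neg a', mul_one, mul_zero, add_zero, a.1, a.2]
      · by_cases a' : (bar j = k ∧ bar i = l)
        · rw [if_pos ((e1 k l).2 (Or.inr a')), if_neg a, if_pos a', mul_one, mul_zero, zero_add, a'.1, a'.2]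
        · rw [if_neg (fun q => ((e1 k l).1 q).elim a a'), if_neg a, if_neg a', mul_zero, mul_zero, add_zero]
    rw [h2] at h1
    have h4 := h.skew X hX i j
    have h3 : uu bar ε i j = (X i j)⁻¹ • (X i j • Matrix.single i j (1 : ℂ) +
        X (bar j) (bar i) • Matrix.single (bar j) (bar i) (1 : ℂ)) := by
      unfold uu
      rw [smul_add, smul_smul, smul_smul, inv_mul_cancel₀ hne, one_smul, sub_eq_add_neg, ← neg_smul]
      have h5 : (X i j)⁻¹ * X (bar j) (bar i) = -(ε i / ε j) := by
        have h6 := h.ε_ne j
        field_simp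
        linear_combination h4
      rw [h5]
    rw [h3]
    exact N.smul_mem _ h1

theorem uu_self (h : IsTorusLie bar ε N) (i : ι) : uu bar ε i i ∈ N := R2_self h i

end TLF
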