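import Pool.Agent.Lib.MP_021685_agTL2.N4

/-! LEAF ZPa (medium-).  The Frobenius polynomials are monic, and their product is separable.

PROOF of `frob_monic`.  `frobPoly q h = ∑ i ∈ range (n + 1), C (h.coeff i) * (X ^ 2 + C q) ^ i * X ^ (n - i)`, `n = h.natDegree`: the term `i = n` is `(X ^ 2 + C q) ^ n`, monic of degree `2 n`, the others have
degree at most `2 i + (n - i) < 2 n` (compare `TI.frob_deg`).  `Polynomial.Monic.add_of_left` or `monic_of_degree_le`.

PROOF of `exists_roots`.  `P.map (Int.castRingHom ℂ)` is monic and splits (`IsAlgClosed.splits`), so it is the product of `X - C z` over the multiset of its roots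
(`Polynomial.Splits.eq_prod_roots_of_monic`, `Polynomial.prod_multiset_X_sub_C_of_monic_of_roots_card_eq`); take `ι = Fin (card roots)` and `lam i` the entries of `roots.toList`
(`List.prod_ofFn`, `Multiset.coe_toList`).

PROOF of `frob_separable`.  `P = ∏ frobPoly q (t i)` is monic (`monic_prod_of_monic`), so `exists_roots` gives `lam`, which is injective by `lam_injective hq hC`; `Polynomial.separable_prod_X_sub_C_iff`. -/

set_option autoImplicit false

namespace TLF

open Polynomial

theorem frob_monic (q : ℕ) (h : ℤ[X]) (hm : h.Monic) :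
    (TI.frobPoly q h).Monic ∧ (TI.frobPoly q h).natDegree = 2 * h.natDegree := by
  have h1 : (TI.frobPoly q h).coeff (2 * h.natDegree) = 1 := by
    unfold TI.frobPoly
    rw [finsetSum_coeff, Finset.sum_eq_single h.natDegree]
    · rw [Nat.sub_self, pow_zero, mul_one, hm.coeff_natDegree, C_1, one_mul]
      have h2 : ((X ^ 2 + C (q : ℤ) : ℤ[X]) ^ h.natDegree).Monic :=
        (monic_X_pow_add_C (q : ℤ) two_ne_zero).pow _
      have h3 : ((X ^ 2 + C (q : ℤ) : ℤ[X]) ^ h.natDegree).natDegree = 2 * h.natDegree := by
        rw [natDegree_pow, natDegree_X_pow_add_C, mul_comm]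
      rw [← h3]
      exact h2.coeff_natDegree
    · intro i hi hne
      refine coeff_eq_zero_of_natDegree_lt ?_
      have h4 : (C (h.coeff i) * (X ^ 2 + C (q : ℤ)) ^ i * X ^ (h.natDegree - i) : ℤ[X]).natDegree ≤
          2 * i + (h.natDegree - i) := by
        refine (natDegree_mul_le).trans ?_
        refine add_le_add ((natDegree_C_mul_le _ _).trans ?_) (natDegree_X_pow_le _)
        refine (natDegree_pow_le).trans ?_
        rw [mul_comm]
        refine Nat.mul_le_mul_right i ?_
        refine (natDegree_add_le _ _).trans ?_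
        simp
      have := Finset.mem_range.1 hi
      omega
    · intro h5
      exact absurd (Finset.self_mem_range_succ _) h5
  have h6 := TI.frob_deg q h hm
  have h7 : (TI.frobPoly q h).natDegree = 2 * h.natDegree := by
    refine le_antisymm h6.1 (le_natDegree_of_ne_zero ?_)
    rw [h1]
    exact one_ne_zero
  refine ⟨?_, h7⟩
  show (TI.frobPoly q h).leadingCoeff = 1
  rw [leadingCoeff, h7, h1]

theorem exists_roots {P : ℤ[X]} (hP : P.Monic) : ∃ (ι : Type) (_ : Fintype ι) (lam : ι → ℂ),
    P.map (Int.castRingHom ℂ) = ∏ i, (X - C (lam i)) := by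
  refine ⟨Fin (P.map (Int.castRingHom ℂ)).roots.toList.length, inferInstance,
    fun i => (P.map (Int.castRingHom ℂ)).roots.toList.get i, ?_⟩
  have h1 := (IsAlgClosed.splits (P.map (Int.castRingHom ℂ))).eq_prod_roots_of_monic (hP.map _)
  have h2 : ((P.map (Int.castRingHom ℂ)).roots.map fun a => X - C a).prod =
      ((P.map (Int.castRingHom ℂ)).roots.toList.map fun a => X - C a).prod := by
    conv_lhs => rw [← Multiset.coe_toList (P.map (Int.castRingHom ℂ)).roots]
    rw [Multiset.map_coe, Multiset.prod_coe]
  refine h1.trans (h2.trans ?_)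
  generalize (P.map (Int.castRingHom ℂ)).roots.toList = l
  rw [← List.prod_ofFn]
  congr 1
  exact List.ext_get (by simp) (by simp)

theorem frob_separable {q g r : ℕ} (hq : 0 < q) {t : Fin r → ℤ[X]} (hC : HI.Crit q g r t) :
    (∏ i, TI.frobPoly q (t i)).Monic ∧ ((∏ i, TI.frobPoly q (t i)).map (Int.castRingHom ℂ)).Separable := by
  have h1 : (∏ i, TI.frobPoly q (t i)).Monic :=
    monic_prod_of_monic _ _ fun i _ => (frob_monic q (t i) (hC.weil i).1).1
  refine ⟨h1, ?_⟩
  obtain ⟨ι, _, lam, hlam⟩ := exists_roots h1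
  rw [hlam]
  exact separable_prod_X_sub_C_iff.2 (lam_injective hq hC hlam)

end TLF
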