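import Pool.Agent.Lib.MP_021685_agTL2.N1
import Pool.Agent.Lib.MP_021685_agTL2.ZPa

/-! LEAF ZPb (easy+).  The roots are not supersingular.

PROOF.  `exists_roots hP` gives `ι`, `lam`; `z = lam i` for some `i` (evaluate the product at `z`).  If `z ^ (2 * n) = q ^ n` then for `k = 2 * n`, `s a = i` for all `a`, `∏ a, lam (s a) = z ^ (2 n) = q ^ n = (√q) ^ (2 n)`.
`match_of_full` gives a perfect matching of `Fin (2 * n)`, not empty as `n > 0`, so `z * z = q` (any matched pair), against `hz2`. -/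

set_option autoImplicit false

namespace TLF

open Polynomial

theorem not_super {q : ℕ} {P : ℤ[X]} (hP : P.Monic) (hF : TI.Full q P) {z : ℂ} (hz : aeval z P = 0)
    (hz2 : z ^ 2 ≠ (q : ℂ)) {n : ℕ} (hn : 0 < n) : z ^ (2 * n) ≠ (q : ℂ) ^ n := by
  classical
  intro h
  obtain ⟨ι, _, lam, hlam⟩ := exists_roots hP
  obtain ⟨i, hi⟩ : ∃ i, z = lam i := by
    have h1 : (P.map (Int.castRingHom ℂ)).eval z = 0 := by
      rw [Polynomial.eval_map]
      exact hz
    rw [hlam, Polynomial.eval_prod] at h1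
    obtain ⟨i, -, hi⟩ := Finset.prod_eq_zero_iff.1 h1
    rw [Polynomial.eval_sub, Polynomial.eval_X, Polynomial.eval_C, sub_eq_zero] at hi
    exact ⟨i, hi⟩
  have hs : ∏ _a : Fin (2 * n), lam i = ((Real.sqrt q : ℝ) : ℂ) ^ (2 * n) := by
    have h2 : ((Real.sqrt q : ℝ) : ℂ) ^ 2 = (q : ℂ) := by
      rw [← Complex.ofReal_pow, Real.sq_sqrt (Nat.cast_nonneg q), Complex.ofReal_natCast]
    rw [Finset.prod_const, Finset.card_univ, Fintype.card_fin, ← hi, h, pow_mul, h2]
  obtain ⟨m, e, he⟩ := match_of_full hF hlam (fun _ : Fin (2 * n) => i) hs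
  have hm : 0 < m := by
    have h3 := Fintype.card_congr e
    rw [Fintype.card_sum, Fintype.card_fin, Fintype.card_fin] at h3
    omega
  apply hz2
  rw [hi, pow_two]
  exact he ⟨0, hm⟩

end TLF
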