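import Pool.Agent.Lib.MP_021685_agTL2.ZPa

/-! LEAF ZPc (medium).  The roots of the Frobenius polynomial are the conjugates of the generator.

PROOF.  `F = (frobPoly q (t i)).map (Int.castRingHom ℚ)` is monic of degree `2 g` (`frob_monic`, `(hC.weil i).2.1`) and `aeval a F = 0`, so `minpoly ℚ a ∣ F`.  `HI.frobField_cm hq t hC.weil hC.irr i l hl hE`
(`l`, `hl` from `hC.loc i`; see its use in `TW.allWeil_of_crit`, `MP_021685_agTW/W3.lean`; do not import that file) gives `finrank ℚ E = 2 * g`, and `minpoly ℚ a` has degree `finrank ℚ E` because `a` generates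
(`IntermediateField.adjoin.finrank`, `hgen`).  So `minpoly ℚ a = F` (`Polynomial.eq_of_monic_of_dvd_of_natDegree_le`).  A complex root `z` of `F` is a root of the minimal polynomial of `a`, so it is `φ a` for an
embedding `φ : E →ₐ[ℚ] ℂ` (`Algebra.IsAlgebraic.range_eval_eq_rootSet_minpoly ℂ a`). -/

set_option autoImplicit false

namespace TLF

open Polynomial Module

private theorem ZPc_aeval {E : Type} [Field E] [CharZero E] (a : E) (P : ℤ[X]) :
    aeval a (P.map (Int.castRingHom ℚ)) = aeval a P := by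
  rw [aeval_def, eval₂_map, aeval_def]
  exact congrArg (fun c => eval₂ c a P) (RingHom.ext_int _ _)

theorem root_conj {q g r : ℕ} (hq : 0 < q) {t : Fin r → ℤ[X]} (hC : HI.Crit q g r t) (i : Fin r) {E : Type}
    [Field E] [NumberField E] {a : E} (ha : aeval a (TI.frobPoly q (t i)) = 0)
    (hgen : IntermediateField.adjoin ℚ {a} = ⊤) {z : ℂ} (hz : aeval z (TI.frobPoly q (t i)) = 0) :
    ∃ φ : E →+* ℂ, φ a = z := by
  obtain ⟨l, hl⟩ := hC.loc i
  have hE : HI.IsFrobField q (t i) E := ⟨a, ha, hgen⟩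
  have hfr : finrank ℚ E = 2 * g := (HI.frobField_cm hq t hC.weil hC.irr i l hl hE).2
  have hW := hC.weil i
  have hmd := frob_monic q (t i) hW.1
  set F : ℚ[X] := (TI.frobPoly q (t i)).map (Int.castRingHom ℚ) with hF
  have hFm : F.Monic := hmd.1.map _
  have hFd : F.natDegree = 2 * g := by
    rw [hF, hmd.1.natDegree_map, hmd.2, hW.2.1]
  have hFa : aeval a F = 0 := by
    rw [hF, ZPc_aeval]
    exact ha
  have hdvd : minpoly ℚ a ∣ F := minpoly.dvd ℚ a hFa
  have hmin : (minpoly ℚ a).natDegree = finrank ℚ E :=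
    (Field.primitive_element_iff_minpoly_natDegree_eq ℚ a).1 hgen
  have heq : F = minpoly ℚ a :=
    eq_of_monic_of_dvd_of_natDegree_le (minpoly.monic (Algebra.IsIntegral.isIntegral a)) hFm hdvd (by rw [hFd, hmin, hfr])
  have hFz : aeval z F = 0 := by
    rw [hF, ZPc_aeval]
    exact hz
  have hmem : z ∈ (minpoly ℚ a).rootSet ℂ := by
    rw [mem_rootSet]
    refine ⟨minpoly.ne_zero_of_finite ℚ a, ?_⟩
    rw [← heq]
    exact hFz
  rw [← NumberField.Embeddings.range_eval_eq_rootSet_minpoly E ℂ a] at hmem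
  obtain ⟨φ, hφ⟩ := hmem
  exact ⟨φ, hφ⟩

end TLF
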