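import Pool.Agent.Lib.MP_021685_agTI.TD

/-! LEAF N1 (medium).  The matching of the factors of a relation, from `TI.Full`.

PROOF.  Apply `hF` to `V = ι → ℂ`, `F = Matrix.toLin' (Matrix.diagonal lam)` (or `LinearMap.pi fun i => lam i • LinearMap.proj i`), `d = 1`, and the multilinear form
`T v = ∏ a, v a (s a)` (for example `MultilinearMap.mkPiAlgebra` composed with the projections, `(MultilinearMap.mkPiAlgebra ℂ (Fin k) ℂ).compLinearMap fun a => LinearMap.proj (s a)`).
`F` is semisimple (it is diagonal: `Module.End.isSemisimple_of_squarefree_aeval_eq_zero` with the product of `X - C z` over `z` in the finite set of values of `lam`, or the semisimplicity of the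
eigenspaces) with characteristic polynomial `∏ i, (X - C (lam i))` (`LinearMap.charpoly_toLin'`/`Matrix.charpoly_toLin'`, `Matrix.charpoly_diagonal` or `Matrix.charpoly_of_upperTriangular`).
`T (F v_1, .., F v_k) = (∏ a, lam (s a)) T v`, so `T` is a Tate form by `hs`.  Hence `T` is in the span of the products `T'`; as `T (e_{s 1}, .., e_{s k}) = 1 ≠ 0` (`e_i = Pi.single i 1`) some product `T'` has
`T' (e_{s 1}, .., e_{s k}) ≠ 0` (otherwise `Submodule.span_induction` gives `0`).  `T' v = ∏ i, b i (v (e (inl i))) (v (e (inr i)))`, so `b i (e_{s (e (inl i))}) (e_{s (e (inr i))}) ≠ 0` for all `i`, and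
`IsPairing` with `d = 1` gives `lam (s (e (inl i))) * lam (s (e (inr i))) = q`. -/

set_option autoImplicit false

namespace TLF

open Polynomial

private theorem N1_apply {ι : Type} [Fintype ι] [DecidableEq ι] (lam : ι → ℂ) (v : ι → ℂ) (i : ι) :
    Matrix.toLin' (Matrix.diagonal lam) v i = lam i * v i := by
  rw [Matrix.toLin'_apply, Matrix.mulVec_diagonal]

private theorem N1_single {ι : Type} [Fintype ι] [DecidableEq ι] (lam : ι → ℂ) (i : ι) :
    Matrix.toLin' (Matrix.diagonal lam) (Pi.single i 1) = lam i • (Pi.single i 1 : ι → ℂ) := by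
  funext j
  rw [N1_apply, Pi.smul_apply, smul_eq_mul]
  rcases eq_or_ne j i with h | h
  · rw [h]
  · rw [Pi.single_eq_of_ne h, mul_zero, mul_zero]

private theorem N1_semisimple {ι : Type} [Fintype ι] [DecidableEq ι] (lam : ι → ℂ) :
    Module.End.IsSemisimple (Matrix.toLin' (Matrix.diagonal lam)) := by
  classical
  have hsq : Squarefree (∏ z ∈ Finset.univ.image lam, (X - C z)) := by
    apply Polynomial.Separable.squarefree
    have := (Polynomial.separable_prod_X_sub_C_iff' (f := fun z : ℂ => z)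
      (s := Finset.univ.image lam)).2 fun x _ y _ h => h
    exact this
  refine Module.End.isSemisimple_of_squarefree_aeval_eq_zero hsq ?_
  apply (Pi.basisFun ℂ ι).ext
  intro i
  rw [Pi.basisFun_apply, LinearMap.zero_apply]
  have hne : (Pi.single i 1 : ι → ℂ) ≠ 0 := by
    intro h
    have h1 := congrFun h i
    rw [Pi.single_eq_same, Pi.zero_apply] at h1
    exact one_ne_zero h1
  have hev : Module.End.HasEigenvector (Matrix.toLin' (Matrix.diagonal lam)) (lam i)
      (Pi.single i 1 : ι → ℂ) :=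
    ⟨Module.End.mem_eigenspace_iff.2 (N1_single lam i), hne⟩
  rw [Module.End.aeval_apply_of_hasEigenvector hev, Polynomial.eval_prod]
  have h0 : ∏ z ∈ Finset.univ.image lam, Polynomial.eval (lam i) (X - C z) = 0 := by
    refine Finset.prod_eq_zero (Finset.mem_image_of_mem lam (Finset.mem_univ i)) ?_
    rw [Polynomial.eval_sub, Polynomial.eval_X, Polynomial.eval_C, sub_self]
  rw [h0, zero_smul]

theorem match_of_full {q : ℕ} {P : ℤ[X]} (hF : TI.Full q P) {ι : Type} [Fintype ι] [DecidableEq ι] {lam : ι → ℂ}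
    (hP : P.map (Int.castRingHom ℂ) = ∏ i, (X - C (lam i))) {k : ℕ} (s : Fin k → ι)
    (hs : ∏ a, lam (s a) = ((Real.sqrt q : ℝ) : ℂ) ^ k) :
    ∃ (m : ℕ) (e : Fin m ⊕ Fin m ≃ Fin k), ∀ i,
      lam (s (e (Sum.inl i))) * lam (s (e (Sum.inr i))) = (q : ℂ) := by
  have hchar : (Matrix.toLin' (Matrix.diagonal lam)).charpoly = P.map (Int.castRingHom ℂ) := by
    rw [Matrix.charpoly_toLin', Matrix.charpoly_diagonal, hP]
  obtain ⟨T, hTv⟩ : ∃ T : MultilinearMap ℂ (fun _ : Fin k => ι → ℂ) ℂ,
      ∀ v, T v = ∏ a, v a (s a) := by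
    refine ⟨(MultilinearMap.mkPiAlgebra ℂ (Fin k) ℂ).compLinearMap
      fun a => (LinearMap.proj (s a) : (ι → ℂ) →ₗ[ℂ] ℂ), fun v => ?_⟩
    rw [MultilinearMap.compLinearMap_apply, MultilinearMap.mkPiAlgebra_apply]
    rfl
  have hT : TI.IsTate q 1 k (Matrix.toLin' (Matrix.diagonal lam)) T := by
    intro v
    rw [hTv, hTv, pow_one, one_mul, ← hs, ← Finset.prod_mul_distrib]
    exact Finset.prod_congr rfl fun a _ => N1_apply lam (v a) (s a)
  have hspan := hF (ι → ℂ) (Matrix.toLin' (Matrix.diagonal lam)) (N1_semisimple lam) hchar 1 k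
    one_pos T hT
  by_contra hcon
  have hz : ∀ T' ∈ Submodule.span ℂ {T' : MultilinearMap ℂ (fun _ : Fin k => ι → ℂ) ℂ |
      TI.IsProduct q 1 k (Matrix.toLin' (Matrix.diagonal lam)) T'},
      T' (fun a => Pi.single (s a) 1) = 0 := by
    intro T' hT'
    induction hT' using Submodule.span_induction with
    | mem T₀ h =>
      obtain ⟨m, e, b, hb, hprod⟩ := h
      rw [hprod]
      by_contra hne
      apply hcon
      refine ⟨m, e, fun i => ?_⟩
      have hi := Finset.prod_ne_zero_iff.1 hne i (Finset.mem_univ i)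
      have h1 := hb i (Pi.single (s (e (Sum.inl i))) 1) (Pi.single (s (e (Sum.inr i))) 1)
      rw [pow_one, pow_one, N1_single, N1_single, map_smul, map_smul, LinearMap.smul_apply,
        smul_eq_mul, smul_eq_mul, ← mul_assoc] at h1
      have h2 := mul_right_cancel₀ hi h1
      rw [mul_comm]
      exact h2
    | zero => rfl
    | add x y _ _ hx hy => rw [add_apply, hx, hy, add_zero]
    | smul c x _ hx => rw [smul_apply, hx, smul_zero]
  have h1 := hz T hspan
  rw [hTv] at h1
  have h2 : ∏ a, (Pi.single (s a) (1 : ℂ) : ι → ℂ) (s a) = 1 :=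
    Finset.prod_eq_one fun a _ => Pi.single_eq_same _ _
  rw [h2] at h1
  exact one_ne_zero h1

end TLF
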