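import Pool.Agent.Lib.MP_021685_agTL2.N1

/-! LEAF N2 (medium).  The only multiplicative relations are the trivial ones.

PROOF.  Let `c i = (n i).toNat + (- n (bar i)).toNat`, a natural number.  Step 1: `∏ i, lam i ^ n i = 1` and `‖lam i‖ ^ 2 = q > 1` give `∑ i, n i = 0` (take norms; `‖lam i‖ = √q`, so
`(√q) ^ (∑ n i) = 1`).  Step 2: `∏ i, lam i ^ c i = (√q) ^ (∑ i, c i)`: with `p i = (n i).toNat`, `m i = (- n i).toNat`, `n i = p i - m i`, `lam (bar i) = q / lam i` and the substitution `i ↦ bar i`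
(`Function.Involutive.toPerm`, `Equiv.prod_comp`), `∏ lam i ^ c i = ∏ lam i ^ p i * ∏ lam (bar i) ^ m i = q ^ (∑ m i) * ∏ lam i ^ n i = q ^ (∑ m i)`, and `∑ c i = ∑ p i + ∑ m i = 2 ∑ m i` by step 1.
Step 3: let `k = ∑ c i` and `s : Fin k → ι` take every value `i` exactly `c i` times (`k = card (Σ i, Fin (c i))`, `s a = (Fintype.equivFin _).symm.. a |>.1`).  Then
`∏ a, lam (s a) = ∏ i, lam i ^ c i = (√q) ^ k` (`Fintype.prod_sigma`).  Step 4: `match_of_full` gives a perfect matching `e` of `Fin k` with `lam (s x) * lam (s x') = q` for matched `x`, `x'`, that is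
`s x' = bar (s x)` (`hinj`, `hbar`).  So the matching is a bijection between `{a | s a = i}` and `{a | s a = bar i}`: `c i = c (bar i)`, that is `p i + m (bar i) = p (bar i) + m i`, so `n i = n (bar i)`. -/

set_option autoImplicit false

namespace TLF

open Polynomial

private theorem N2_zpow {ι : Type} [Fintype ι] {x : ℝ} (hx : 0 < x) (n : ι → ℤ) : ∏ i, x ^ n i = x ^ (∑ i, n i) := by
  classical
  have h : ∀ t : Finset ι, ∏ i ∈ t, x ^ n i = x ^ (∑ i ∈ t, n i) := by
    intro t
    induction t using Finset.induction_on with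
    | empty => simp
    | insert a t ha ih => rw [Finset.prod_insert ha, Finset.sum_insert ha, zpow_add₀ hx.ne', ih]
  exact h _

/-- a tuple which takes every value `i` exactly `c i` times -/
private theorem N2_tuple {ι : Type} [Fintype ι] [DecidableEq ι] (c : ι → ℕ) :
    ∃ s : Fin (∑ i, c i) → ι, ∀ i, (Finset.univ.filter fun a => s a = i).card = c i := by
  have hcard : Fintype.card (Σ i, Fin (c i)) = ∑ i, c i := by
    rw [Fintype.card_sigma]
    simp
  obtain ⟨e⟩ : Nonempty ((Σ i, Fin (c i)) ≃ Fin (∑ i, c i)) := ⟨Fintype.equivFinOfCardEq hcard⟩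
  refine ⟨fun a => (e.symm a).1, fun i => ?_⟩
  have h1 : (Finset.univ.filter fun a => (e.symm a).1 = i) =
      (Finset.univ : Finset (Fin (c i))).map ⟨fun x => e ⟨i, x⟩, fun x y h => by
        have h2 := e.injective h
        simpa using h2⟩ := by
    ext a
    simp only [Finset.mem_filter, Finset.mem_univ, true_and, Finset.mem_map, Function.Embedding.coeFn_mk]
    constructor
    · intro h
      obtain ⟨b, rfl⟩ := e.surjective a
      rw [Equiv.symm_apply_apply] at h
      obtain ⟨j, x⟩ := b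
      dsimp only at h
      subst h
      exact ⟨x, rfl⟩
    · rintro ⟨x, rfl⟩
      rw [Equiv.symm_apply_apply]
  rw [h1, Finset.card_map, Finset.card_univ, Fintype.card_fin]

theorem rel_of_full {q : ℕ} (hq : 1 < q) {P : ℤ[X]} (hF : TI.Full q P) {ι : Type} [Fintype ι] [DecidableEq ι]
    {lam : ι → ℂ} (hP : P.map (Int.castRingHom ℂ) = ∏ i, (X - C (lam i))) (hinj : Function.Injective lam)
    (habs : ∀ i, ‖lam i‖ ^ 2 = (q : ℝ)) (bar : ι → ι) (hbb : ∀ i, bar (bar i) = i)
    (hbar : ∀ i, lam i * lam (bar i) = (q : ℂ)) (n : ι → ℤ) (hn : ∏ i, lam i ^ n i = 1) (i : ι) :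
    n (bar i) = n i := by
  have hq0 : (0 : ℝ) < q := by
    have : 0 < q := by omega
    exact_mod_cast this
  have hq1 : (1 : ℝ) < q := by exact_mod_cast hq
  have hlam : ∀ i, lam i ≠ 0 := by
    intro i h
    have h1 := habs i
    rw [h, norm_zero] at h1
    norm_num at h1
    exact hq0.ne h1
  have hnorm : ∀ i, ‖lam i‖ = Real.sqrt q := by
    intro i
    rw [← habs i, Real.sqrt_sq (norm_nonneg _)]
  have hsq1 : 1 < Real.sqrt q := by
    apply Real.lt_sqrt_of_sq_lt
    linarith
  -- step 1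
  have hsum : ∑ i, n i = 0 := by
    have h1 := congrArg norm hn
    rw [norm_prod, norm_one] at h1
    have h2 : ∀ i, ‖lam i ^ n i‖ = Real.sqrt q ^ n i := by
      intro i
      rw [norm_zpow, hnorm]
    rw [Finset.prod_congr rfl fun i _ => h2 i, N2_zpow (by linarith) n] at h1
    exact (zpow_eq_one_iff_right₀ (by positivity) hsq1.ne').mp h1
  obtain ⟨p, hp⟩ : ∃ p : ι → ℕ, p = fun i => (n i).toNat := ⟨_, rfl⟩
  obtain ⟨m, hm⟩ : ∃ m : ι → ℕ, m = fun i => (-n i).toNat := ⟨_, rfl⟩
  have hpm : ∀ i, (p i : ℤ) = n i + m i := by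
    intro i
    rw [hp, hm]
    dsimp only
    omega
  obtain ⟨c, hc⟩ : ∃ c : ι → ℕ, c = fun i => p i + m (bar i) := ⟨_, rfl⟩
  have hinv : Function.Involutive bar := hbb
  have hsub : ∀ {M : Type} [CommMonoid M] (f : ι → M), ∏ i, f (bar i) = ∏ i, f i := by
    intro M _ f
    exact Equiv.prod_comp hinv.toPerm f
  have hsubs : ∀ f : ι → ℕ, ∑ i, f (bar i) = ∑ i, f i := by
    intro f
    exact Equiv.sum_comp hinv.toPerm f
  have hpp : ∏ i, lam i ^ p i = ∏ i, lam i ^ m i := by
    have h1 : ∀ i, lam i ^ p i = lam i ^ n i * lam i ^ m i := by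
      intro i
      rw [← zpow_natCast, hpm, zpow_add₀ (hlam i), zpow_natCast]
    rw [Finset.prod_congr rfl fun i _ => h1 i, Finset.prod_mul_distrib, hn, one_mul]
  have hprod : ∏ i, lam i ^ c i = (q : ℂ) ^ (∑ i, m i) := by
    have h1 : ∀ i, lam i ^ c i = lam i ^ p i * lam i ^ m (bar i) := by
      intro i
      rw [hc]
      exact pow_add _ _ _
    rw [Finset.prod_congr rfl fun i _ => h1 i, Finset.prod_mul_distrib, hpp]
    have h2 : ∏ i, lam i ^ m (bar i) = ∏ i, lam (bar i) ^ m i := by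
      rw [← hsub fun i => lam i ^ m (bar i)]
      exact Finset.prod_congr rfl fun i _ => by rw [hbb]
    rw [h2, ← Finset.prod_mul_distrib, ← Finset.prod_pow_eq_pow_sum]
    refine Finset.prod_congr rfl fun i _ => ?_
    rw [← mul_pow, hbar]
  have hcs : ∑ i, c i = 2 * ∑ i, m i := by
    have h1 : ∑ i, c i = ∑ i, p i + ∑ i, m i := by
      rw [hc, Finset.sum_add_distrib, hsubs m]
    have h2 : ((∑ i, p i : ℕ) : ℤ) = ((∑ i, m i : ℕ) : ℤ) := by
      push_cast
      rw [Finset.sum_congr rfl fun i _ => hpm i, Finset.sum_add_distrib, hsum, zero_add]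
    have h3 : ∑ i, p i = ∑ i, m i := by exact_mod_cast h2
    rw [h1, h3, two_mul]
  -- steps 3 and 4
  obtain ⟨s, hs⟩ := N2_tuple c
  have hsprod : ∏ a, lam (s a) = ((Real.sqrt q : ℝ) : ℂ) ^ (∑ i, c i) := by
    rw [← Finset.prod_fiberwise Finset.univ s fun a => lam (s a)]
    have h1 : ∀ i, ∏ a ∈ Finset.univ.filter (fun a => s a = i), lam (s a) = lam i ^ c i := by
      intro i
      rw [← hs i, ← Finset.prod_const]
      refine Finset.prod_congr rfl fun a ha => ?_
      rw [(Finset.mem_filter.mp ha).2]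
    rw [Finset.prod_congr rfl fun i _ => h1 i, hprod, hcs, pow_mul]
    congr 1
    rw [← Complex.ofReal_pow, Real.sq_sqrt hq0.le]
    norm_num
  obtain ⟨M, e, he⟩ := match_of_full hF hP s hsprod
  have hr : ∀ x, s (e (Sum.inr x)) = bar (s (e (Sum.inl x))) := by
    intro x
    apply hinj
    have h1 := he x
    rw [← hbar (s (e (Sum.inl x)))] at h1
    exact mul_left_cancel₀ (hlam _) h1
  have hl : ∀ x, s (e (Sum.inl x)) = bar (s (e (Sum.inr x))) := by
    intro x
    rw [hr, hbb]
  have hswap : ∀ y, s (e y.swap) = bar (s (e y)) := by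
    intro y
    rcases y with x | x
    · exact hr x
    · exact hl x
  have hcc : c i = c (bar i) := by
    rw [← hs i, ← hs (bar i)]
    refine Finset.card_bij' (fun a _ => e (e.symm a).swap) (fun a _ => e (e.symm a).swap) ?_ ?_ ?_ ?_
    · intro a ha
      rw [Finset.mem_filter] at ha ⊢
      refine ⟨Finset.mem_univ _, ?_⟩
      rw [hswap, Equiv.apply_symm_apply, ha.2]
    · intro a ha
      rw [Finset.mem_filter] at ha ⊢
      refine ⟨Finset.mem_univ _, ?_⟩
      rw [hswap, Equiv.apply_symm_apply, ha.2, hbb]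
    · intro a _
      rw [Equiv.symm_apply_apply, Sum.swap_swap, Equiv.apply_symm_apply]
    · intro a _
      rw [Equiv.symm_apply_apply, Sum.swap_swap, Equiv.apply_symm_apply]
  rw [hc] at hcc
  dsimp only at hcc
  rw [hbb] at hcc
  have h1 := hpm i
  have h2 := hpm (bar i)
  have h3 : (p i : ℤ) + m (bar i) = p (bar i) + m i := by exact_mod_cast hcc
  linarith

end TLF
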