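import Pool.Agent.Lib.MP_021685_agTL2.N2

/-! LEAF N3 (easy+).  The involution of the roots.

PROOF of `exists_bar`.  `lam i` is a root of `P.map` (`Polynomial.eval_prod`, `Finset.prod_eq_zero`), so `aeval (lam i) P = 0`.  `P` has integer coefficients, so the complex conjugate of `lam i` is a root too
(for example `Polynomial.aeval_conj`-like, or `Polynomial.eval₂_hom`/`map_aeval` with `starRingEnd ℂ`), hence `conj (lam i) = lam j` for some `j` (`Finset.prod_eq_zero_iff`).  Choose `bar i` with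
`lam (bar i) = conj (lam i)`.  `lam i * conj (lam i) = ‖lam i‖ ^ 2 = q` (`Complex.mul_conj'`/`Complex.mul_conj`, `Complex.normSq_eq_norm_sq`).  `bar (bar i) = i` by `hinj`; `bar i = i` would give
`lam i ^ 2 = q`, which `hW` excludes.

PROOF of `odd_rel`.  `S = ∑ n i x i = ∑ n (bar i) x (bar i)` (`Equiv.sum_comp`) `= - S` by `rel_of_full`, so `S = 0`. -/

set_option autoImplicit false

namespace TLF

open Polynomial

theorem exists_bar {q : ℕ} {P : ℤ[X]} {ι : Type} [Fintype ι] [DecidableEq ι] {lam : ι → ℂ}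
    (hP : P.map (Int.castRingHom ℂ) = ∏ i, (X - C (lam i))) (hinj : Function.Injective lam)
    (hW : ∀ z : ℂ, aeval z P = 0 → ‖z‖ ^ 2 = (q : ℝ) ∧ z ^ 2 ≠ (q : ℂ)) :
    (∀ i, ‖lam i‖ ^ 2 = (q : ℝ)) ∧ ∃ bar : ι → ι, (∀ i, bar (bar i) = i) ∧ (∀ i, bar i ≠ i) ∧
      ∀ i, lam i * lam (bar i) = (q : ℂ) := by
  have hev : ∀ z : ℂ, aeval z P = ∏ i, (z - lam i) := by
    intro z
    have h1 : aeval z P = (P.map (Int.castRingHom ℂ)).eval z := by
      rw [Polynomial.eval_map, Polynomial.aeval_def]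
      rfl
    rw [h1, hP, Polynomial.eval_prod]
    simp
  have hroot : ∀ i, aeval (lam i) P = 0 := by
    intro i
    rw [hev]
    exact Finset.prod_eq_zero (Finset.mem_univ i) (sub_self _)
  have hconj : ∀ z : ℂ, aeval z P = 0 → aeval ((starRingEnd ℂ) z) P = 0 := by
    intro z hz
    rw [Polynomial.aeval_def] at hz ⊢
    have h1 := Polynomial.hom_eval₂ P (algebraMap ℤ ℂ) (starRingEnd ℂ) z
    rw [hz, map_zero] at h1
    have h2 : (starRingEnd ℂ).comp (algebraMap ℤ ℂ) = algebraMap ℤ ℂ := RingHom.ext_int _ _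
    rw [h2] at h1
    exact h1.symm
  have hex : ∀ i, ∃ j, lam j = (starRingEnd ℂ) (lam i) := by
    intro i
    have h1 := hconj _ (hroot i)
    rw [hev] at h1
    obtain ⟨j, _, hj⟩ := Finset.prod_eq_zero_iff.1 h1
    exact ⟨j, (sub_eq_zero.1 hj).symm⟩
  choose bar hb using hex
  have hmul : ∀ i, lam i * lam (bar i) = (q : ℂ) := by
    intro i
    rw [hb, Complex.mul_conj']
    have h1 := (hW _ (hroot i)).1
    have h2 : ((‖lam i‖ ^ 2 : ℝ) : ℂ) = ((q : ℝ) : ℂ) := by rw [h1]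
    rw [Complex.ofReal_pow, Complex.ofReal_natCast] at h2
    exact h2
  refine ⟨fun i => (hW _ (hroot i)).1, bar, ?_, ?_, hmul⟩
  · intro i
    apply hinj
    rw [hb, hb, Complex.conj_conj]
  · intro i hi
    apply (hW _ (hroot i)).2
    have h1 := hmul i
    rw [hi] at h1
    rw [sq]
    exact h1

theorem odd_rel {q : ℕ} (hq : 1 < q) {P : ℤ[X]} (hF : TI.Full q P) {ι : Type} [Fintype ι] [DecidableEq ι]
    {lam : ι → ℂ} (hP : P.map (Int.castRingHom ℂ) = ∏ i, (X - C (lam i))) (hinj : Function.Injective lam)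
    (habs : ∀ i, ‖lam i‖ ^ 2 = (q : ℝ)) (bar : ι → ι) (hbb : ∀ i, bar (bar i) = i)
    (hbar : ∀ i, lam i * lam (bar i) = (q : ℂ)) (x : ι → ℂ) (hx : ∀ i, x (bar i) = - x i) (n : ι → ℤ)
    (hn : ∏ i, lam i ^ n i = 1) : ∑ i, (n i : ℂ) * x i = 0 := by
  have h1 : ∑ i, (n (bar i) : ℂ) * x (bar i) = ∑ i, (n i : ℂ) * x i :=
    Equiv.sum_comp (Function.Involutive.toPerm bar hbb) fun i => (n i : ℂ) * x i
  have h2 : ∑ i, (n (bar i) : ℂ) * x (bar i) = -∑ i, (n i : ℂ) * x i := by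
    rw [← Finset.sum_neg_distrib]
    refine Finset.sum_congr rfl fun i _ => ?_
    rw [rel_of_full hq hF hP hinj habs bar hbb hbar n hn i, hx i, mul_neg]
  have h3 : (∑ i, (n i : ℂ) * x i) = -∑ i, (n i : ℂ) * x i := h1.symm.trans h2
  exact self_eq_neg.1 h3

end TLF
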