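import Pool.Agent.Lib.MP_021685_agTL2.R0

/-! LEAF R1 (medium-, Mathlib only).  The components of an element of a space stable under the bracket with a diagonal matrix.

PROOF.  For every polynomial `p` the matrix `(p (d k - d l) X k l)` is in `N` (induction on `p`: `Polynomial.induction_on`; multiplication by `X` is the bracket with `diagonal d`:
`(diagonal d * X - X * diagonal d) k l = (d k - d l) * X k l`).  Let `S` be the finite set of the numbers `d k - d l` and take `p` with `p c = 1`, `p s = 0` for `s` in `S`, `s ≠ c`: for example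
`p = ∏ s ∈ S.erase c, C ((c - s)⁻¹) * (X - C s)`, or `Lagrange.basis`. -/

set_option autoImplicit false

namespace TLF

private theorem R1_pow {ι : Type*} [Fintype ι] [DecidableEq ι] (N : Submodule ℂ (Matrix ι ι ℂ)) (d : ι → ℂ)
    (hd : ∀ X ∈ N, Matrix.diagonal d * X - X * Matrix.diagonal d ∈ N) (n : ℕ) :
    ∀ Y ∈ N, (Matrix.of fun k l => (d k - d l) ^ n * Y k l) ∈ N := by
  induction n with
  | zero =>
    intro Y hY
    have h : (Matrix.of fun k l => (d k - d l) ^ 0 * Y k l) = Y := by
      ext k l
      rw [Matrix.of_apply, pow_zero, one_mul]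
    rw [h]
    exact hY
  | succ n ih =>
    intro Y hY
    have h1 := ih _ (hd Y hY)
    have h : (Matrix.of fun k l => (d k - d l) ^ n *
        (Matrix.diagonal d * Y - Y * Matrix.diagonal d) k l) =
        Matrix.of fun k l => (d k - d l) ^ (n + 1) * Y k l := by
      ext k l
      rw [Matrix.of_apply, Matrix.of_apply, Matrix.sub_apply, Matrix.diagonal_mul, Matrix.mul_diagonal]
      ring
    rw [h] at h1
    exact h1

private theorem R1_poly {ι : Type*} [Fintype ι] [DecidableEq ι] (N : Submodule ℂ (Matrix ι ι ℂ)) (d : ι → ℂ)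
    (hd : ∀ X ∈ N, Matrix.diagonal d * X - X * Matrix.diagonal d ∈ N) (p : Polynomial ℂ) :
    ∀ Y ∈ N, (Matrix.of fun k l => p.eval (d k - d l) * Y k l) ∈ N := by
  intro Y hY
  have h : (Matrix.of fun k l => p.eval (d k - d l) * Y k l) =
      ∑ n ∈ Finset.range (p.natDegree + 1), p.coeff n • Matrix.of fun k l => (d k - d l) ^ n * Y k l := by
    ext k l
    rw [Matrix.of_apply, Matrix.sum_apply, Polynomial.eval_eq_sum_range, Finset.sum_mul]
    refine Finset.sum_congr rfl fun n _ => ?_
    rw [Matrix.smul_apply, Matrix.of_apply, smul_eq_mul]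
    ring
  rw [h]
  exact Submodule.sum_mem _ fun n _ => N.smul_mem _ (R1_pow N d hd n Y hY)

theorem comp_mem {ι : Type*} [Fintype ι] [DecidableEq ι] (N : Submodule ℂ (Matrix ι ι ℂ)) (d : ι → ℂ)
    (hd : ∀ X ∈ N, Matrix.diagonal d * X - X * Matrix.diagonal d ∈ N) {X : Matrix ι ι ℂ} (hX : X ∈ N) (c : ℂ) :
    (Matrix.of fun k l => if d k - d l = c then X k l else 0) ∈ N := by
  classical
  let S : Finset ℂ := (Finset.univ : Finset (ι × ι)).image fun kl => d kl.1 - d kl.2
  let p : Polynomial ℂ := ∏ s ∈ S.erase c, (Polynomial.C (c - s)⁻¹ * (Polynomial.X - Polynomial.C s))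
  have h1 := R1_poly N d hd p X hX
  have h2 : (Matrix.of fun k l => if d k - d l = c then X k l else 0) =
      Matrix.of fun k l => p.eval (d k - d l) * X k l := by
    ext k l
    rw [Matrix.of_apply, Matrix.of_apply, Polynomial.eval_prod]
    by_cases h : d k - d l = c
    · rw [if_pos h, h, Finset.prod_eq_one, one_mul]
      intro s hs
      have hs1 : c - s ≠ 0 := sub_ne_zero.2 (Finset.ne_of_mem_erase hs).symm
      rw [Polynomial.eval_mul, Polynomial.eval_C, Polynomial.eval_sub, Polynomial.eval_X, Polynomial.eval_C,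
        inv_mul_cancel₀ hs1]
    · rw [if_neg h]
      have hmem : d k - d l ∈ S.erase c :=
        Finset.mem_erase.2 ⟨h, Finset.mem_image.2 ⟨(k, l), Finset.mem_univ _, rfl⟩⟩
      rw [Finset.prod_eq_zero hmem, zero_mul]
      rw [Polynomial.eval_mul, Polynomial.eval_sub, Polynomial.eval_X, Polynomial.eval_C, Polynomial.eval_C,
        sub_self, mul_zero]
  rw [h2]
  exact h1

end TLF
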